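import Pool.Agent.N412.PE.All

/-!
MP_333fa2_co, Q1 (full positive answer): complete graphs `K_k` with at least polynomially many
pendant edges are bonbons.
-/

set_option autoImplicit false

namespace Pool.Agent.Results.MP_333fa2_co.PolynomialThreshold

open Classical in
/-- Number of monochromatic labelled copies of `H` in the red/blue colouring of the edges of the
complete graph on `Fin n` with red graph `G` and blue graph `Gᶜ`: injective maps sending all edges
of `H` to red edges, or all edges of `H` to blue edges. -/
noncomputable def copies {t n : ℕ} (H : SimpleGraph (Fin t)) (G : SimpleGraph (Fin n)) : ℕ :=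
  ((Finset.univ : Finset (Fin t ↪ Fin n)).filter
    (fun f => (∀ u v, H.Adj u v → G.Adj (f u) (f v)) ∨
      (∀ u v, H.Adj u v → Gᶜ.Adj (f u) (f v)))).card

/-- `H` is a bonbon: `H` is connected and, with `χ(H) = r + 1`, for all large `n` the
colourings of `K_n` with the minimum number of monochromatic labelled copies of `H` are exactly
those isomorphic, up to swapping the two colours, to the Turan colouring with `r` parts. Here
`SimpleGraph.turanGraph n r` is the complete balanced `r`-partite graph, so the Turan colouring
has the complement of this graph as its red graph. -/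
def IsBonbon {t : ℕ} (H : SimpleGraph (Fin t)) : Prop :=
  H.Connected ∧ ∃ r : ℕ, H.chromaticNumber = ((r + 1 : ℕ) : ℕ∞) ∧ ∃ N : ℕ, ∀ n : ℕ, N ≤ n →
    ∀ G : SimpleGraph (Fin n), (∀ G' : SimpleGraph (Fin n), copies H G ≤ copies H G') ↔
      (Nonempty (G ≃g SimpleGraph.turanGraph n r) ∨ Nonempty (Gᶜ ≃g SimpleGraph.turanGraph n r))

/-- `H` is obtained from the complete graph `K_k` by adding pendant edges: there is a set `S` of
`k` pairwise adjacent vertices, and every vertex outside `S` has exactly one neighbour, which
lies in `S`. -/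
def IsPendantExtension (k : ℕ) {t : ℕ} (H : SimpleGraph (Fin t)) : Prop :=
  ∃ S : Finset (Fin t), S.card = k ∧ (∀ u ∈ S, ∀ v ∈ S, u ≠ v → H.Adj u v) ∧
    ∀ v, v ∉ S → ∃ u ∈ S, ∀ w, H.Adj v w ↔ w = u

theorem result : ∃ C : ℕ, ∀ k t : ℕ, 4 ≤ k → C * k ^ 30 ≤ t →
    ∀ H : SimpleGraph (Fin t), IsPendantExtension k H → IsBonbon H := by
  obtain ⟨C, hC⟩ := Pool.Agent.N412.PE.all
  exact ⟨C, fun k t hk ht H hH => hC k hk t ht H hH⟩

end Pool.Agent.Results.MP_333fa2_co.PolynomialThreshold
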